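import Pool.Agent.H419R3.KT.Gen

/-!
# Covering `[1, N]` by one residue class for each prime near `N^α`: windows of many slices

Inside a window of length `O(N^α)` every chosen class contains a progression
`x, x + p, …, x + k p`, and the differences `p` are distinct. So every bound of the form
`|D| ≤ C |T|^β` for sets `T` that contain a progression of length `k + 1` for each difference of
`D` gives the lower exponent `1 - α + α / β` for all `0 < α < 1`. The bound holds with `k = 6`,
`C = 1`, `β = 7/4` (slices `0, 2, 3, 6`), which gives the exponent `1 - 3α/7`.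
-/

namespace Pool.Agent.Results.MP_bb5cc8_nt.ProgressionWindows

open Pool.Agent.H170R2.PC Pool.Agent.H419R3.KT

/-- Every progression bound with exponent `β ≥ 1` gives the lower exponent `1 - α + α / β`;
the progression bound with exponent `7/4` holds, so `1 - 3α/7` is a lower exponent, and for
`7/8 < α < 1` it is larger than `3/2 - α` and `1 - 5α/11`; if there are progression bounds with
exponents arbitrarily close to `1`, then `1` is a lower exponent for all `0 < α < 1`. -/
theorem result :
    (∀ (k : ℕ) (C β : ℝ), 1 ≤ β → ProgressionBound k C β →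
      ∀ α : ℝ, 0 < α → α < 1 → LowerExponent α (1 - α + α / β)) ∧
    ProgressionBound 6 1 (7 / 4) ∧
    (∀ α : ℝ, 0 < α → α < 1 → LowerExponent α (1 - 3 * α / 7)) ∧
    (∀ α : ℝ, 7 / 8 < α → α < 1 → 3 / 2 - α < 1 - 3 * α / 7 ∧
      1 - 5 * α / 11 < 1 - 3 * α / 7) ∧
    ((∀ ε : ℝ, 0 < ε → ∃ (k : ℕ) (C : ℝ), ProgressionBound k C (1 + ε)) →
      ∀ α : ℝ, 0 < α → α < 1 → LowerExponent α 1) := by
  refine ⟨?_, progressionBound_six, ?_, ?_, ?_⟩
  · intro k C β hβ h α h0 h1
    exact exp_gen hβ h h0 h1
  · intro α h0 h1
    exact exp_window4 h0 h1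
  · intro α h0 h1
    constructor <;> linarith
  · intro h α h0 h1
    exact exp_all h h0 h1

end Pool.Agent.Results.MP_bb5cc8_nt.ProgressionWindows
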